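import Pool.Agent.Lib_helper25.MC.QU
import Pool.Agent.Lib_helper2.MC.QB
import Pool.Agent.Lib_helper68.MC.DefsD

/-! Project MC (MP_b08f5f_an), block G1: geometric means of quantile functions. -/

set_option autoImplicit false

namespace Pool.Agent.Lib_helper68.MC

open MeasureTheory Filter Topology Set
open scoped ComplexConjugate ENNReal NNReal

noncomputable section

/-- Young's inequality `a b ≤ a log a - a + e ^ b` -/
theorem G1_young {a b : ℝ} (ha : 0 ≤ a) : a * b ≤ a * Real.log a - a + Real.exp b := by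
  rcases ha.eq_or_lt with h | h
  · rw [← h]
    have := Real.exp_pos b
    simp only [zero_mul, sub_zero, zero_add]
    exact this.le
  · have h1 := Real.add_one_le_exp (b - Real.log a)
    have h2 : Real.exp (b - Real.log a) = Real.exp b / a := by
      rw [Real.exp_sub, Real.exp_log h]
    rw [h2, le_div_iff₀ h] at h1
    nlinarith

theorem G1_log {g : ℝ → ℝ} (h : Den1 g) : Integrable fun v => g v * Real.log v := by
  have hi : Integrable (fun v : ℝ => (Ioo (0 : ℝ) 1).indicator (fun v => v ^ (-(1 / 2) : ℝ)) v) := by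
    rw [integrable_indicator_iff measurableSet_Ioo]
    have h1 : IntervalIntegrable (fun x : ℝ => x ^ (-(1 / 2) : ℝ)) volume 0 1 :=
      intervalIntegral.intervalIntegrable_rpow' (by norm_num)
    rw [intervalIntegrable_iff_integrableOn_Ioo_of_le zero_le_one] at h1
    exact h1
  refine (((h.ent.abs.const_mul 2).add (hi.const_mul 2)).add h.mom.abs).mono'
    (h.meas.mul Real.measurable_log).aestronglyMeasurable (Eventually.of_forall fun v => ?_)
  rw [Real.norm_eq_abs]
  simp only [Pi.add_apply]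
  have hg := h.nonneg v
  rcases le_or_gt v 0 with hv | hv
  · rw [h.zero v hv]
    simp only [zero_mul, abs_zero, mul_zero, add_zero]
    have : 0 ≤ (Ioo (0 : ℝ) 1).indicator (fun v => v ^ (-(1 / 2) : ℝ)) v := by
      rw [indicator_of_notMem (by simp [not_lt.2 hv])]
    linarith
  · rcases lt_or_ge v 1 with h1 | h1
    · rw [indicator_of_mem (show v ∈ Ioo (0 : ℝ) 1 from ⟨hv, h1⟩)]
      have hl : Real.log v ≤ 0 := Real.log_nonpos hv.le h1.le
      rw [abs_mul, abs_of_nonneg hg, abs_of_nonpos hl]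
      have hy := G1_young (b := -(1 / 2) * Real.log v) hg
      have he : Real.exp (-(1 / 2) * Real.log v) = v ^ (-(1 / 2) : ℝ) := by
        rw [Real.rpow_def_of_pos hv, mul_comm]
      rw [he] at hy
      have h2 := le_abs_self (g v * Real.log (g v))
      have h3 := abs_nonneg (v * g v)
      nlinarith
    · rw [indicator_of_notMem (by simp [not_lt.2 h1])]
      have hl : 0 ≤ Real.log v := Real.log_nonneg h1
      rw [abs_mul, abs_of_nonneg hg, abs_of_nonneg hl, abs_of_nonneg (mul_nonneg hv.le hg)]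
      have h2 : Real.log v ≤ v := by
        have := Real.log_le_sub_one_of_pos hv
        linarith
      have h3 := abs_nonneg (g v * Real.log (g v))
      nlinarith [mul_le_mul_of_nonneg_left h2 hg]

/-- Lebesgue measure on `(0, 1)` -/
abbrev G1mu : Measure ℝ := volume.restrict (Ioo (0 : ℝ) 1)

instance : IsProbabilityMeasure G1mu := ⟨by simp [G1mu]⟩

section push

variable {g V : ℝ → ℝ}

theorem G1_push (h : Den1 g) (hV : Measurable V)
    (hmap : Measure.map V G1mu = volume.withDensity (fun v => ENNReal.ofReal (g v)))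
    {F : ℝ → ℝ} (hF : Measurable F) :
    (Integrable (fun s => F (V s)) G1mu ↔ Integrable fun v => g v * F v) ∧
      ∫ s, F (V s) ∂G1mu = ∫ v, g v * F v := by
  have hgm : Measurable fun v => ENNReal.ofReal (g v) := h.meas.ennreal_ofReal
  have hlt : ∀ᵐ v, ENNReal.ofReal (g v) < ⊤ := Eventually.of_forall fun v => ENNReal.ofReal_lt_top
  have e : ∀ v, (ENNReal.ofReal (g v)).toReal • F v = g v * F v := fun v => by
    rw [ENNReal.toReal_ofReal (h.nonneg v), smul_eq_mul]
  constructor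
  · have h1 : Integrable (fun s => F (V s)) G1mu ↔ Integrable F (Measure.map V G1mu) :=
      (integrable_map_measure hF.aestronglyMeasurable hV.aemeasurable).symm
    rw [h1, hmap, integrable_withDensity_iff_integrable_smul' hgm hlt]
    simp only [e]
  · have h1 : ∫ s, F (V s) ∂G1mu = ∫ v, F v ∂(Measure.map V G1mu) :=
      (integral_map hV.aemeasurable hF.aestronglyMeasurable).symm
    rw [h1, hmap, integral_withDensity_eq_integral_toReal_smul hgm hlt]
    simp only [e]

theorem G1_push2 (h : Den1 g) (hV : Measurable V)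
    (hmap : Measure.map V G1mu = volume.withDensity (fun v => ENNReal.ofReal (g v)))
    {F : ℝ × ℝ → ℝ} (hF : Measurable F) :
    ∫ p, F (V p.1, V p.2) ∂(G1mu.prod G1mu) = ∫ p : ℝ × ℝ, F p * (g p.1 * g p.2) := by
  have hgm : Measurable fun v => ENNReal.ofReal (g v) := h.meas.ennreal_ofReal
  have h1 : Measure.map (Prod.map V V) (G1mu.prod G1mu) =
      (volume : Measure (ℝ × ℝ)).withDensity
        (fun p => ENNReal.ofReal (g p.1) * ENNReal.ofReal (g p.2)) := by
    rw [← Measure.map_prod_map _ _ hV hV, hmap, prod_withDensity hgm hgm,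
      Measure.volume_eq_prod]
  have h2 : ∫ p, F (V p.1, V p.2) ∂(G1mu.prod G1mu) =
      ∫ p, F p ∂(Measure.map (Prod.map V V) (G1mu.prod G1mu)) :=
    (integral_map (hV.prodMap hV).aemeasurable hF.aestronglyMeasurable).symm
  have h3 : Measurable fun p : ℝ × ℝ => ENNReal.ofReal (g p.1) * ENNReal.ofReal (g p.2) :=
    (hgm.comp measurable_fst).mul (hgm.comp measurable_snd)
  rw [h2, h1, integral_withDensity_eq_integral_toReal_smul h3
    (Eventually.of_forall fun p => ENNReal.mul_lt_top ENNReal.ofReal_lt_top ENNReal.ofReal_lt_top)]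
  refine integral_congr_ae (Eventually.of_forall fun p => ?_)
  simp only [smul_eq_mul, Function.comp]
  rw [ENNReal.toReal_mul, ENNReal.toReal_ofReal (h.nonneg p.1), ENNReal.toReal_ofReal (h.nonneg p.2)]
  ring

end push

/-- the data of a quantile function used below -/
structure G1Q (g V : ℝ → ℝ) : Prop where
  mono : StrictMonoOn V (Ioo 0 1)
  pos : ∀ s ∈ Ioo (0 : ℝ) 1, 0 < V s
  meas : Measurable V
  map : Measure.map V G1mu = volume.withDensity (fun v => ENNReal.ofReal (g v))
  der : ∀ᵐ s ∂G1mu, 0 < g (V s) ∧ HasDerivAt V (1 / g (V s)) s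
  int : Integrable V G1mu
  intv : ∫ s, V s ∂G1mu = ∫ v, v * g v
  ilog : Integrable (fun s => Real.log (V s)) G1mu
  ient : Integrable (fun s => Real.log (g (V s))) G1mu
  sent : S1 g = -∫ s, Real.log (g (V s)) ∂G1mu

theorem G1_quant {g : ℝ → ℝ} (h : Den1 g) : ∃ V : ℝ → ℝ, G1Q g V := by
  obtain ⟨V, h1, h2, h3, h4, h5⟩ := QU_main h
  have p1 := G1_push h h3 h4 (F := fun v => v) measurable_id
  have p2 := G1_push h h3 h4 (F := Real.log) Real.measurable_log
  have p3 := G1_push h h3 h4 (F := fun v => Real.log (g v)) (Real.measurable_log.comp h.meas)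
  refine ⟨V, h1, h2, h3, h4, h5, p1.1.2 ?_, ?_, p2.1.2 (G1_log h), p3.1.2 h.ent, ?_⟩
  · exact h.mom.congr (Eventually.of_forall fun v => by ring)
  · rw [p1.2]
    exact integral_congr_ae (Eventually.of_forall fun v => by ring)
  · rw [p3.2]
    rfl

theorem G1_mem : ∀ᵐ s ∂G1mu, s ∈ Ioo (0 : ℝ) 1 := ae_restrict_mem measurableSet_Ioo

theorem G1_mem2 : ∀ᵐ p ∂(G1mu.prod G1mu), p.1 ∈ Ioo (0 : ℝ) 1 ∧ p.2 ∈ Ioo (0 : ℝ) 1 := by
  have h1 : ∀ᵐ p : ℝ × ℝ ∂(G1mu.prod G1mu), p.1 ∈ Ioo (0 : ℝ) 1 :=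
    (Measure.quasiMeasurePreserving_fst (μ := G1mu) (ν := G1mu)).ae G1_mem
  have h2 : ∀ᵐ p : ℝ × ℝ ∂(G1mu.prod G1mu), p.2 ∈ Ioo (0 : ℝ) 1 :=
    (Measure.quasiMeasurePreserving_snd (μ := G1mu) (ν := G1mu)).ae G1_mem
  filter_upwards [h1, h2] with p a b using ⟨a, b⟩

/-- the energy in terms of the quantile function -/
theorem G1_L1 {g V : ℝ → ℝ} (h : Den1 g) (q : StrictMonoOn V (Ioo 0 1))
    (hV : Measurable V) (hpos : ∀ s ∈ Ioo (0 : ℝ) 1, 0 < V s)
    (hmap : Measure.map V G1mu = volume.withDensity (fun v => ENNReal.ofReal (g v))) :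
    L1 g = ∫ p, Real.log (V (max p.1 p.2)) ∂(G1mu.prod G1mu) := by
  have hF : Measurable fun p : ℝ × ℝ => Real.log (max p.1 p.2) :=
    Real.measurable_log.comp (measurable_fst.max measurable_snd)
  have h1 := G1_push2 h hV hmap hF
  rw [L1, ← h1]
  refine integral_congr_ae ?_
  filter_upwards [G1_mem2] with p hp
  congr 1
  rcases le_total p.1 p.2 with h2 | h2
  · rw [max_eq_right h2, max_eq_right (q.monotoneOn hp.1 hp.2 h2)]
  · rw [max_eq_left h2, max_eq_left (q.monotoneOn hp.2 hp.1 h2)]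

theorem G1_ilog2 {V : ℝ → ℝ} (hV : Measurable V)
    (hi : Integrable (fun s => Real.log (V s)) G1mu) :
    Integrable (fun p : ℝ × ℝ => Real.log (V (max p.1 p.2))) (G1mu.prod G1mu) := by
  have i1 : Integrable (fun p : ℝ × ℝ => |Real.log (V p.1)|) (G1mu.prod G1mu) :=
    (hi.abs).comp_fst G1mu
  have i2 : Integrable (fun p : ℝ × ℝ => |Real.log (V p.2)|) (G1mu.prod G1mu) :=
    (hi.abs).comp_snd G1mu
  refine (i1.add i2).mono' ?_ (Eventually.of_forall fun p => ?_)
  · exact (Real.measurable_log.comp (hV.comp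
      (measurable_fst.max measurable_snd))).aestronglyMeasurable
  · rw [Real.norm_eq_abs]
    simp only [Pi.add_apply]
    rcases le_total p.1 p.2 with h | h
    · rw [max_eq_right h]
      exact le_add_of_nonneg_left (abs_nonneg _)
    · rw [max_eq_left h]
      exact le_add_of_nonneg_right (abs_nonneg _)

theorem G1_main {g₀ g₁ : ℝ → ℝ} (h₀ : Den1 g₀) (h₁ : Den1 g₁) (hne : ¬ g₀ =ᵐ[volume] g₁) :
    ∃ g : ℝ → ℝ, Den1 g ∧ ∫ v, v * g v < ((∫ v, v * g₀ v) + ∫ v, v * g₁ v) / 2 ∧
      L1 g = (L1 g₀ + L1 g₁) / 2 ∧ (S1 g₀ + S1 g₁) / 2 ≤ S1 g := by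
  obtain ⟨V₀, q₀⟩ := G1_quant h₀
  obtain ⟨V₁, q₁⟩ := G1_quant h₁
  set V : ℝ → ℝ := fun s => Real.sqrt (V₀ s * V₁ s) with hVdef
  set D : ℝ → ℝ := fun s => (1 / g₀ (V₀ s) * V₁ s + V₀ s * (1 / g₁ (V₁ s))) /
    (2 * Real.sqrt (V₀ s * V₁ s)) with hDdef
  have hVm : Measurable V := (q₀.meas.mul q₁.meas).sqrt
  have hDm : Measurable D := by
    have a0 : Measurable fun s => g₀ (V₀ s) := h₀.meas.comp q₀.meas
    have a1 : Measurable fun s => g₁ (V₁ s) := h₁.meas.comp q₁.meas
    exact (((measurable_const.div a0).mul q₁.meas).add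
      (q₀.meas.mul (measurable_const.div a1))).div ((q₀.meas.mul q₁.meas).sqrt.const_mul 2)
  have hV0 : ∀ s ∈ Ioo (0 : ℝ) 1, 0 < V s := fun s hs =>
    Real.sqrt_pos.2 (mul_pos (q₀.pos s hs) (q₁.pos s hs))
  have hVmono : StrictMonoOn V (Ioo 0 1) := by
    intro s hs t ht hst
    refine Real.sqrt_lt_sqrt (mul_nonneg (q₀.pos s hs).le (q₁.pos s hs).le) ?_
    exact mul_lt_mul'' (q₀.mono hs ht hst) (q₁.mono hs ht hst) (q₀.pos s hs).le (q₁.pos s hs).le
  have hVlog : ∀ s ∈ Ioo (0 : ℝ) 1,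
      Real.log (V s) = (Real.log (V₀ s) + Real.log (V₁ s)) / 2 := by
    intro s hs
    have p0 := q₀.pos s hs
    have p1 := q₁.pos s hs
    rw [hVdef]
    simp only
    rw [Real.log_sqrt (mul_pos p0 p1).le, Real.log_mul p0.ne' p1.ne']
  have hD : ∀ᵐ s ∂G1mu, 0 < D s ∧ HasDerivAt V (D s) s := by
    filter_upwards [q₀.der, q₁.der, G1_mem] with s d0 d1 hs
    have p0 := q₀.pos s hs
    have p1 := q₁.pos s hs
    refine ⟨?_, ?_⟩
    · have e0 : 0 < g₀ (V₀ s) := d0.1
      have e1 : 0 < g₁ (V₁ s) := d1.1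
      simp only [hDdef]
      positivity
    · exact (d0.2.mul d1.2).sqrt (mul_pos p0 p1).ne'
  -- bounds for log D
  have hDlow : ∀ᵐ s ∂G1mu, -(Real.log (g₀ (V₀ s)) + Real.log (g₁ (V₁ s))) / 2 ≤ Real.log (D s) := by
    filter_upwards [q₀.der, q₁.der, G1_mem, hD] with s d0 d1 hs hDs
    have p0 := q₀.pos s hs
    have p1 := q₁.pos s hs
    have e0 : 0 < g₀ (V₀ s) := d0.1
    have e1 : 0 < g₁ (V₁ s) := d1.1
    have key : Real.sqrt (1 / g₀ (V₀ s) * (1 / g₁ (V₁ s))) ≤ D s := by
      have hs0 : 0 < Real.sqrt (V₀ s * V₁ s) := Real.sqrt_pos.2 (mul_pos p0 p1)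
      simp only [hDdef]
      rw [le_div_iff₀ (by positivity)]
      have hx : Real.sqrt (1 / g₀ (V₀ s) * (1 / g₁ (V₁ s))) * Real.sqrt (V₀ s * V₁ s) =
          Real.sqrt (1 / g₀ (V₀ s) * V₁ s) * Real.sqrt (V₀ s * (1 / g₁ (V₁ s))) := by
        rw [← Real.sqrt_mul (by positivity), ← Real.sqrt_mul (by positivity)]
        congr 1
        ring
      have h2 := sq_nonneg (Real.sqrt (1 / g₀ (V₀ s) * V₁ s) -
        Real.sqrt (V₀ s * (1 / g₁ (V₁ s))))
      have s1 := Real.sq_sqrt (by positivity : 0 ≤ 1 / g₀ (V₀ s) * V₁ s)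
      have s2 := Real.sq_sqrt (by positivity : 0 ≤ V₀ s * (1 / g₁ (V₁ s)))
      nlinarith
    have h3 := Real.log_le_log (Real.sqrt_pos.2 (by positivity)) key
    rw [Real.log_sqrt (by positivity), Real.log_mul (by positivity) (by positivity), one_div,
      one_div, Real.log_inv, Real.log_inv] at h3
    linarith
  have hDup : ∀ᵐ s ∂G1mu, Real.log (D s) ≤ |Real.log (g₀ (V₀ s))| + |Real.log (g₁ (V₁ s))| +
      |Real.log (V₀ s)| + |Real.log (V₁ s)| := by
    filter_upwards [q₀.der, q₁.der, G1_mem, hD] with s d0 d1 hs hDs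
    have p0 := q₀.pos s hs
    have p1 := q₁.pos s hs
    have e0 : 0 < g₀ (V₀ s) := d0.1
    have e1 : 0 < g₁ (V₁ s) := d1.1
    have hs0 : 0 < Real.sqrt (V₀ s * V₁ s) := Real.sqrt_pos.2 (mul_pos p0 p1)
    set A := 1 / g₀ (V₀ s) * V₁ s with hA
    set Bb := V₀ s * (1 / g₁ (V₁ s)) with hB
    have hA0 : 0 < A := by positivity
    have hB0 : 0 < Bb := by positivity
    have hmax : D s ≤ max A Bb / Real.sqrt (V₀ s * V₁ s) := by
      simp only [hDdef]
      rw [div_le_div_iff₀ (by positivity) hs0]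
      have h1 : A + Bb ≤ 2 * max A Bb := by
        have := le_max_left A Bb
        have := le_max_right A Bb
        linarith
      nlinarith [mul_le_mul_of_nonneg_right h1 hs0.le]
    have hm0 : 0 < max A Bb := lt_max_of_lt_left hA0
    have h2 := Real.log_le_log hDs.1 hmax
    rw [Real.log_div hm0.ne' hs0.ne', Real.log_sqrt (mul_pos p0 p1).le,
      Real.log_mul p0.ne' p1.ne'] at h2
    have lA : Real.log A = -Real.log (g₀ (V₀ s)) + Real.log (V₁ s) := by
      rw [hA, Real.log_mul (by positivity) p1.ne', one_div, Real.log_inv]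
    have lB : Real.log Bb = Real.log (V₀ s) - Real.log (g₁ (V₁ s)) := by
      rw [hB, Real.log_mul p0.ne' (by positivity), one_div, Real.log_inv]
      ring
    have a1 := neg_abs_le (Real.log (g₀ (V₀ s)))
    have a2 := neg_abs_le (Real.log (g₁ (V₁ s)))
    have a3 := neg_abs_le (Real.log (V₀ s))
    have a4 := neg_abs_le (Real.log (V₁ s))
    have a5 := le_abs_self (Real.log (V₀ s))
    have a6 := le_abs_self (Real.log (V₁ s))
    have a7 := abs_nonneg (Real.log (g₀ (V₀ s)))
    have a8 := abs_nonneg (Real.log (g₁ (V₁ s)))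
    rcases le_total A Bb with h3 | h3
    · rw [max_eq_right h3, lB] at h2
      linarith
    · rw [max_eq_left h3, lA] at h2
      linarith
  have hDi : Integrable (fun s => Real.log (D s)) G1mu := by
    refine (((q₀.ient.abs.add q₁.ient.abs).add q₀.ilog.abs).add q₁.ilog.abs).mono'
      (Real.measurable_log.comp hDm).aestronglyMeasurable ?_
    filter_upwards [hDlow, hDup] with s l u
    rw [Real.norm_eq_abs, abs_le]
    simp only [Pi.add_apply]
    have a1 := le_abs_self (Real.log (g₀ (V₀ s)))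
    have a2 := le_abs_self (Real.log (g₁ (V₁ s)))
    have a3 := abs_nonneg (Real.log (V₀ s))
    have a4 := abs_nonneg (Real.log (V₁ s))
    have a5 := abs_nonneg (Real.log (g₀ (V₀ s)))
    have a6 := abs_nonneg (Real.log (g₁ (V₁ s)))
    constructor
    · linarith
    · exact u
  have hVle : ∀ᵐ s ∂G1mu, V s ≤ (V₀ s + V₁ s) / 2 := by
    filter_upwards [G1_mem] with s hs
    have p0 := q₀.pos s hs
    have p1 := q₁.pos s hs
    simp only [hVdef]
    rw [Real.sqrt_le_left (by positivity)]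
    nlinarith [sq_nonneg (V₀ s - V₁ s)]
  have hVi : Integrable V G1mu := by
    refine ((q₀.int.add q₁.int).div_const 2).mono' hVm.aestronglyMeasurable ?_
    filter_upwards [hVle] with s h
    rw [Real.norm_of_nonneg (Real.sqrt_nonneg _)]
    exact h
  obtain ⟨g, hg, hmap, hS⟩ := QB_main hVmono hVm hDm hV0 hD hVi hDi
  refine ⟨g, hg, ?_, ?_, ?_⟩
  · -- strict decrease of the moment
    have e1 : ∫ v, v * g v = ∫ s, V s ∂G1mu := by
      rw [(G1_push hg hVm hmap (F := fun v => v) measurable_id).2]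
      exact integral_congr_ae (Eventually.of_forall fun v => by ring)
    rw [e1, ← q₀.intv, ← q₁.intv, ← integral_add q₀.int q₁.int, ← integral_div]
    have hint2 : Integrable (fun s => (V₀ s + V₁ s) / 2) G1mu :=
      (q₀.int.add q₁.int).div_const 2
    refine lt_of_le_of_ne (integral_mono_ae hVi hint2 hVle) fun heq => hne ?_
    have hz : (fun s => (V₀ s + V₁ s) / 2 - V s) =ᵐ[G1mu] 0 := by
      have hi : Integrable (fun s => (V₀ s + V₁ s) / 2 - V s) G1mu := hint2.sub hVi
      refine (integral_eq_zero_iff_of_nonneg_ae ?_ hi).1 ?_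
      · filter_upwards [hVle] with s h
        simp only [Pi.zero_apply]
        linarith
      · rw [integral_sub hint2 hVi, heq, sub_self]
    have hVV : V₀ =ᵐ[G1mu] V₁ := by
      filter_upwards [hz, G1_mem] with s h hs
      have p0 := q₀.pos s hs
      have p1 := q₁.pos s hs
      simp only [Pi.zero_apply, hVdef] at h
      have h2 := Real.sq_sqrt (mul_pos p0 p1).le
      have h3 : Real.sqrt (V₀ s * V₁ s) = (V₀ s + V₁ s) / 2 := by linarith
      rw [h3] at h2
      have h4 : (V₀ s - V₁ s) ^ 2 = 0 := by nlinarith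
      have h5 := pow_eq_zero_iff (two_ne_zero) |>.1 h4
      linarith
    have hm : volume.withDensity (fun v => ENNReal.ofReal (g₀ v)) =
        volume.withDensity (fun v => ENNReal.ofReal (g₁ v)) := by
      rw [← q₀.map, ← q₁.map]
      exact Measure.map_congr hVV
    have h6 := (withDensity_eq_iff_of_sigmaFinite h₀.meas.ennreal_ofReal.aemeasurable
      h₁.meas.ennreal_ofReal.aemeasurable).1 hm
    filter_upwards [h6] with v hv
    have := congrArg ENNReal.toReal hv
    rwa [ENNReal.toReal_ofReal (h₀.nonneg v), ENNReal.toReal_ofReal (h₁.nonneg v)] at this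
  · -- the energy
    rw [G1_L1 hg hVmono hVm hV0 hmap, G1_L1 h₀ q₀.mono q₀.meas q₀.pos q₀.map,
      G1_L1 h₁ q₁.mono q₁.meas q₁.pos q₁.map,
      ← integral_add (G1_ilog2 q₀.meas q₀.ilog) (G1_ilog2 q₁.meas q₁.ilog), ← integral_div]
    refine integral_congr_ae ?_
    filter_upwards [G1_mem2] with p hp
    refine hVlog _ ?_
    rcases le_total p.1 p.2 with h2 | h2
    · rw [max_eq_right h2]
      exact hp.2
    · rw [max_eq_left h2]
      exact hp.1
  · -- the entropy
    rw [hS, q₀.sent, q₁.sent]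
    have e2 : (-(∫ s, Real.log (g₀ (V₀ s)) ∂G1mu) + -∫ s, Real.log (g₁ (V₁ s)) ∂G1mu) / 2 =
        ∫ s, -(Real.log (g₀ (V₀ s)) + Real.log (g₁ (V₁ s))) / 2 ∂G1mu := by
      rw [integral_div, integral_neg, integral_add q₀.ient q₁.ient]
      ring
    rw [e2]
    exact integral_mono_ae ((q₀.ient.add q₁.ient).neg.div_const 2) hDi hDlow

end

end Pool.Agent.Lib_helper68.MC
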